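import Pool.Agent.Q124.Surv.Cart

/-!
# Finiteness of the survival number is not a quasi-isometry invariant

Let `T` be the 3-regular tree.  The strong product of `T` and the two-way infinite path `ℤ` has
survival number at most `6`, and the Cartesian product of `T` and `ℤ` has infinite survival number.
The identity map of the common vertex set is a quasi-isometry.

* Strong product (distances are maxima): the vertex `(o, 0)` is dominated by the six vertices
  `(x_j, ± j M)`, where `x_1, x_2, x_3` are the neighbours of `o`: if `(x, z)` is far from `(o, 0)`
  and `x_j` is the neighbour of `o` in the direction of `x`, then `(x_j, j M)` (for `z ≥ 0`) is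
  closer to `(x, z)` than `(o, 0)`.
* Cartesian product (distances are sums): let `a` be in a finite set dominating `(o, 0)` and
  disjoint from a large ball about `(o, 0)`.  There are more than `n` disjoint infinite subtrees of
  `T` near `o`.  To dominate `(o, 0)` at the vertices `(x, 0)`, `x` in such a subtree, a vertex
  `(y, z)` with `y` in this subtree is necessary.
-/

namespace Pool.Agent.Results.MP_b633b3_co.NotInvariant

open Q124.Surv

/-- The graphs `G` and `H` are quasi-isometric. -/
def QuasiIsometric {V W : Type*} (G : SimpleGraph V) (H : SimpleGraph W) : Prop :=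
  ∃ (f : V → W) (l c : ℝ), 1 ≤ l ∧ 0 ≤ c ∧
    (∀ x y, l⁻¹ * (G.dist x y : ℝ) - c ≤ (H.dist (f x) (f y) : ℝ) ∧
      (H.dist (f x) (f y) : ℝ) ≤ l * (G.dist x y : ℝ) + c) ∧
    ∀ w, ∃ x, (H.dist w (f x) : ℝ) ≤ c

theorem quasi : QuasiIsometric (strongZ tree) (tree □ lineZ) := by
  refine ⟨id, 2, 0, by norm_num, le_rfl, ?_, fun w => ⟨w, by simp⟩⟩
  intro x y
  simp only [id_eq, add_zero, sub_zero]
  have h1 := box_dist tree_connected x y
  obtain ⟨h2, h3⟩ := le_strong_dist tree_connected x y
  have h4 : (strongZ tree).dist x y ≤ (tree □ lineZ).dist x y := by
    apply strong_dist_le tree_connected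
    · have := abs_nonneg (x.2 - y.2)
      omega
    · omega
  have h5 : (tree □ lineZ).dist x y ≤ 2 * (strongZ tree).dist x y := by omega
  constructor
  · have h6 : ((strongZ tree).dist x y : ℝ) ≤ ((tree □ lineZ).dist x y : ℝ) := by exact_mod_cast h4
    have h7 : (0 : ℝ) ≤ ((strongZ tree).dist x y : ℝ) := Nat.cast_nonneg _
    norm_num
    linarith
  · exact_mod_cast h5

/-- **There are two quasi-isometric infinite, connected, locally finite, vertex-transitive graphs,
one of which has finite survival number and the other one infinite survival number.** -/
theorem result : ∃ (V W : Type) (G : SimpleGraph V) (H : SimpleGraph W), Infinite V ∧ Infinite W ∧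
    G.Connected ∧ H.Connected ∧ LocFinite G ∧ LocFinite H ∧ VertexTransitive G ∧
    VertexTransitive H ∧ QuasiIsometric G H ∧ survival G ≤ 6 ∧ survival H = ⊤ := by
  refine ⟨Tr × ℤ, Tr × ℤ, strongZ tree, tree □ lineZ, inferInstance, inferInstance,
    strong_connected tree_connected, box_connected tree_connected,
    strong_locFinite tree_locFinite, box_locFinite tree_locFinite,
    strong_transitive tree_transitive, box_transitive tree_transitive, quasi, ?_, cart_survival⟩
  have h := strong_survival tree_connected tree_locFinite (base 0)
  rw [tree_degree] at h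
  exact h

end Pool.Agent.Results.MP_b633b3_co.NotInvariant
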